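import Pool.Agent.Q102.Heis.Grp

set_option autoImplicit false
set_option linter.unusedSimpArgs false

/-! Automorphisms of `H(ℤ) ⋊ ℤ/4`. -/

namespace Pool.Agent.Q102.Heis

open GG

/-- generators -/
def gA : GG := ⟨1, 0, 0, 0⟩
/-- generators -/
def gB : GG := ⟨0, 1, 0, 0⟩
/-- generators -/
def gC : GG := ⟨0, 0, 1, 0⟩
/-- generators -/
def gR : GG := ⟨0, 0, 0, 1⟩

/-- Elements of the Heisenberg subgroup outside the centre. -/
def InH (g : GG) : Prop := g.k = 0 ∧ ¬ (g.x = 0 ∧ g.y = 0)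

theorem central_of (w : ℤ) (h : GG) : (⟨0, 0, w, 0⟩ : GG) * h = h * ⟨0, 0, w, 0⟩ := by
  obtain ⟨x, y, z, k⟩ := h
  fin_cases k <;> ext <;> simp [rx, ry, rz] <;> ring

theorem pow4_eq (g : GG) : g ^ 4 = g * (g * (g * g)) := by
  rw [show (4 : ℕ) = 1 + 1 + 1 + 1 from rfl, pow_add, pow_add, pow_add, pow_one]
  simp only [mul_assoc]

theorem pow4_of_k (g : GG) (hk : g.k ≠ 0) : ∃ w : ℤ, g ^ 4 = ⟨0, 0, w, 0⟩ := by
  rw [pow4_eq]
  obtain ⟨x, y, z, k⟩ := g
  refine ⟨(⟨x, y, z, k⟩ * (⟨x, y, z, k⟩ * (⟨x, y, z, k⟩ * ⟨x, y, z, k⟩)) : GG).z, ?_⟩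
  have h3 : (3 + (3 + 3) : Fin 4) = 1 := by decide
  have h4 : (3 + 3 : Fin 4) = 2 := by decide
  have h5 : (2 + 2 : Fin 4) = 0 := by decide
  have h6 : (1 + 1 : Fin 4) = 2 := by decide
  have h7 : (1 + 2 : Fin 4) = 3 := by decide
  have h8 : (3 + 2 : Fin 4) = 1 := by decide
  have h9 : (1 + 3 : Fin 4) = 0 := by decide
  have h10 : (3 + 1 : Fin 4) = 0 := by decide
  fin_cases k
  · exact absurd rfl hk
  · ext <;> simp [rx, ry, h6, h7, h9]
  · ext <;> simp [rx, ry, h5]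
  · ext <;> simp [rx, ry, h4, h8, h10]

theorem inH_iff (g : GG) : InH g ↔ ∃ h : GG, g ^ 4 * h ≠ h * g ^ 4 := by
  constructor
  · rintro ⟨hk, hv⟩
    refine ⟨gR, fun h => hv ?_⟩
    obtain ⟨x, y, z, k⟩ := g
    simp only at hk hv ⊢
    subst hk
    rw [pow4_eq] at h
    have h1 := congrArg GG.x h
    have h2 := congrArg GG.y h
    simp [gR, rx, ry] at h1 h2
    constructor <;> omega
  · rintro ⟨h, hh⟩
    by_contra hcon
    apply hh
    by_cases hk : g.k = 0
    · have hv : g.x = 0 ∧ g.y = 0 := by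
        by_contra h1
        exact hcon ⟨hk, h1⟩
      have hg : g = ⟨0, 0, g.z, 0⟩ := by ext <;> simp [hk, hv.1, hv.2]
      have hc : Commute g h := by
        rw [hg]; exact central_of _ _
      exact (hc.pow_left 4)
    · obtain ⟨w, hw⟩ := pow4_of_k g hk
      rw [hw]
      exact central_of _ _

theorem inH_map (φ : GG ≃* GG) (g : GG) (hg : InH g) : InH (φ g) := by
  rw [inH_iff] at hg ⊢
  obtain ⟨h, hh⟩ := hg
  refine ⟨φ h, fun e => hh ?_⟩
  apply φ.injective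
  rw [map_mul, map_mul, map_pow]
  exact e

theorem central_iff (g : GG) (h : ∀ h, g * h = h * g) : g.k = 0 ∧ g.x = 0 ∧ g.y = 0 := by
  obtain ⟨x, y, z, k⟩ := g
  have h1 := h gA
  have h2 := h gR
  have h1x := congrArg GG.x h1
  have h1y := congrArg GG.y h1
  have h2x := congrArg GG.x h2
  have h2y := congrArg GG.y h2
  fin_cases k
  · simp [gA, gR, rx, ry] at h1x h1y h2x h2y ⊢
    omega
  · simp [gA, gR, rx, ry] at h1x h1y
  · simp [gA, gR, rx, ry] at h1x h1y
    omega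
  · simp [gA, gR, rx, ry] at h1x h1y

theorem central_map (φ : GG ≃* GG) (w : ℤ) : ∃ w' : ℤ, φ ⟨0, 0, w, 0⟩ = ⟨0, 0, w', 0⟩ := by
  obtain ⟨h1, h2, h3⟩ := central_iff (φ ⟨0, 0, w, 0⟩) (by
    intro h
    obtain ⟨h', rfl⟩ := φ.surjective h
    rw [← map_mul, ← map_mul, central_of])
  exact ⟨(φ ⟨0, 0, w, 0⟩).z, by ext <;> simp [h1, h2, h3]⟩

theorem pow_zero_k (p q s : ℤ) (hpq : p * q = 0) (n : ℤ) :
    (⟨p, q, s, 0⟩ : GG) ^ n = ⟨n * p, n * q, n * s, 0⟩ := by
  induction n using Int.induction_on with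
  | zero => ext <;> simp
  | succ n ih =>
    rw [zpow_add_one, ih]
    ext
    · simp [rx]; ring
    · simp [ry]; ring
    · simp [rz, ry]
      linear_combination (n : ℤ) * hpq
    · simp
  | pred n ih =>
    rw [zpow_sub_one, ih]
    ext
    · simp [rx]; ring
    · simp [ry]; ring
    · simp [rz, ry]
      linear_combination ((n : ℤ) + 1) * hpq
    · simp

theorem decomp (x y z : ℤ) : (⟨x, y, z, 0⟩ : GG) = gB ^ y * gA ^ x * gC ^ z := by
  rw [gA, gB, gC, pow_zero_k 1 0 0 (by ring), pow_zero_k 0 1 0 (by ring),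
    pow_zero_k 0 0 1 (by ring)]
  ext <;> simp [rx, ry, rz]

/-- The action of an automorphism on the non-central elements of the Heisenberg subgroup. -/
theorem auto_form (φ : GG ≃* GG) : ∃ p q e f s t : ℤ,
    (p = 0 ∨ q = 0) ∧ (p * p + q * q = 1) ∧ (e = 1 ∨ e = -1) ∧ (f = 1 ∨ f = -1) ∧
    ∀ x y z : ℤ, φ ⟨x, y, z, 0⟩ =
      ⟨x * p - e * y * q, x * q + e * y * p, y * t + x * s + f * z - e * x * y * q * q, 0⟩ := by
  obtain ⟨hAk, hAv⟩ := inH_map φ gA ⟨rfl, by simp [gA]⟩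
  obtain ⟨hBk, hBv⟩ := inH_map φ gB ⟨rfl, by simp [gB]⟩
  obtain ⟨δ, hδ⟩ := central_map φ 1
  have hA : φ gA = ⟨(φ gA).x, (φ gA).y, (φ gA).z, 0⟩ := by ext <;> simp [hAk]
  have hB : φ gB = ⟨(φ gB).x, (φ gB).y, (φ gB).z, 0⟩ := by ext <;> simp [hBk]
  have hR : φ gR = ⟨(φ gR).x, (φ gR).y, (φ gR).z, (φ gR).k⟩ := rfl
  set p := (φ gA).x with hp
  set q := (φ gA).y with hq
  set s := (φ gA).z with hs
  set p' := (φ gB).x with hp'
  set q' := (φ gB).y with hq'
  set t := (φ gB).z with ht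
  set j := (φ gR).k with hj
  have hC : φ gC = ⟨0, 0, δ, 0⟩ := hδ
  -- relations
  have r1 : gR * gA = gB * gR := by
    ext <;> simp [gR, gA, gB, rx, ry, rz]
  have r2 : gA * gR * gB = gR := by
    ext <;> simp [gR, gA, gB, rx, ry, rz]
  have r3 : gA * gB = gB * gA * gC := by
    ext <;> simp [gC, gA, gB, rx, ry, rz]
  have s1 : φ gR * φ gA = φ gB * φ gR := by rw [← map_mul, ← map_mul, r1]
  have s2 : φ gA * φ gR * φ gB = φ gR := by rw [← map_mul, ← map_mul, r2]
  have s3 : φ gA * φ gB = φ gB * φ gA * φ gC := by rw [← map_mul, ← map_mul, ← map_mul, r3]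
  rw [hR, hA, hB] at s1 s2
  rw [hA, hB, hC] at s3
  have s1x := congrArg GG.x s1
  have s1y := congrArg GG.y s1
  have s2x := congrArg GG.x s2
  have s2y := congrArg GG.y s2
  have s3z := congrArg GG.z s3
  simp [rx, ry, rz] at s3z
  -- δ is a unit
  obtain ⟨δ', hδ'⟩ := central_map φ.symm 1
  have hunit : δ * δ' = 1 := by
    have h1 : φ ⟨0, 0, δ', 0⟩ = ⟨0, 0, 1, 0⟩ := by rw [← hδ']; simp
    have h2 : (⟨0, 0, δ', 0⟩ : GG) = gC ^ δ' := by
      rw [gC, pow_zero_k 0 0 1 (by ring)]; simp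
    rw [h2, map_zpow, hC, pow_zero_k 0 0 δ (by ring)] at h1
    have := congrArg GG.z h1
    simp only at this
    linarith [mul_comm δ δ']
  have hAv' : ¬ (p = 0 ∧ q = 0) := hAv
  have hδ1 : δ = 1 ∨ δ = -1 := Int.isUnit_iff.1 (IsUnit.of_mul_eq_one _ hunit)
  have main : ∃ e : ℤ, (e = 1 ∨ e = -1) ∧ p' = -e * q ∧ q' = e * p := by
    clear_value j
    clear hj hR s1 s2
    fin_cases j
    · exfalso
      simp [rx, ry] at s1x s1y s2x s2y
      apply hAv'
      constructor <;> omega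
    · refine ⟨1, Or.inl rfl, ?_, ?_⟩
      · simp [rx, ry] at s1x s1y s2x s2y ⊢
        omega
      · simp [rx, ry] at s1x s1y s2x s2y ⊢
        omega
    · exfalso
      simp [rx, ry] at s1x s1y s2x s2y
      apply hAv'
      constructor <;> omega
    · refine ⟨-1, Or.inr rfl, ?_, ?_⟩
      · simp [rx, ry] at s1x s1y s2x s2y ⊢
        omega
      · simp [rx, ry] at s1x s1y s2x s2y ⊢
        omega
  obtain ⟨e, he, hp'e, hq'e⟩ := main
  have hsum : p * p + q * q = 1 := by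
    have h1 : δ = e * (p * p + q * q) := by
      rw [hp'e, hq'e] at s3z
      linarith
    have h2 : 0 ≤ p * p + q * q := by nlinarith [mul_self_nonneg p, mul_self_nonneg q]
    rcases he with rfl | rfl <;> rcases hδ1 with h3 | h3 <;> omega
  have hpq : p = 0 ∨ q = 0 := by
    by_contra hcon
    push Not at hcon
    have h1 : 1 ≤ p * p := by
      have := mul_self_pos.2 hcon.1; omega
    have h2 : 1 ≤ q * q := by
      have := mul_self_pos.2 hcon.2; omega
    omega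
  refine ⟨p, q, e, δ, s, t, hpq, hsum, he, hδ1, ?_⟩
  intro x y z
  have hpq0 : p * q = 0 := by rcases hpq with h | h <;> simp [h]
  have hpq' : p' * q' = 0 := by
    rw [hp'e, hq'e]
    linear_combination (-e * e) * hpq0
  rw [decomp, map_mul, map_mul, map_zpow, map_zpow, map_zpow, hA, hB, hC,
    pow_zero_k p q s hpq0, pow_zero_k p' q' t hpq', pow_zero_k 0 0 δ (by ring), hp'e, hq'e]
  ext
  · simp [rx, ry, rz]; ring
  · simp [rx, ry, rz]; ring
  · simp [rx, ry, rz]; ring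
  · simp

/-- Two non-central elements of the Heisenberg subgroup in one orbit. -/
theorem orbit_form (φ : GG ≃* GG) (x y z : ℤ) : ∃ x' y' z' f : ℤ,
    φ ⟨x, y, z, 0⟩ = ⟨x', y', z', 0⟩ ∧ (f = 1 ∨ f = -1) ∧
    ((x'.natAbs = x.natAbs ∧ y'.natAbs = y.natAbs) ∨
      (x'.natAbs = y.natAbs ∧ y'.natAbs = x.natAbs)) ∧
    ((Int.gcd x y : ℕ) : ℤ) ∣ z' - f * z := by
  obtain ⟨p, q, e, f, s, t, h1, h2, h3, h4, h5⟩ := auto_form φ
  refine ⟨_, _, _, f, h5 x y z, h4, ?_, ?_⟩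
  · rcases h1 with rfl | rfl
    · right
      have hq : q = 1 ∨ q = -1 := by
        have : (q - 1) * (q + 1) = 0 := by linear_combination h2
        rcases mul_eq_zero.1 this with h | h
        · left; omega
        · right; omega
      rcases hq with rfl | rfl <;> rcases h3 with rfl | rfl <;> constructor <;> simp
    · left
      have hp : p = 1 ∨ p = -1 := by
        have : (p - 1) * (p + 1) = 0 := by linear_combination h2
        rcases mul_eq_zero.1 this with h | h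
        · left; omega
        · right; omega
      rcases hp with rfl | rfl <;> rcases h3 with rfl | rfl <;> constructor <;> simp
  · have hx : ((Int.gcd x y : ℕ) : ℤ) ∣ x := Int.gcd_dvd_left ..
    have hy : ((Int.gcd x y : ℕ) : ℤ) ∣ y := Int.gcd_dvd_right ..
    have e1 : y * t + x * s + f * z - e * x * y * q * q - f * z =
        y * t + x * (s - e * y * q * q) := by ring
    rw [e1]
    exact dvd_add (Dvd.dvd.mul_right hy _) (Dvd.dvd.mul_right hx _)

end Pool.Agent.Q102.Heis
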