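import Mathlib

set_option autoImplicit false

/-! The sum of `gcd(x, y)` over `1 ≤ x, y ≤ n` is of the order of `n² log n`. -/

namespace Pool.Agent.Q102.Heis

open Finset

/-- pairs -/
def PP (n : ℕ) : Finset (ℕ × ℕ) := Ioc 0 n ×ˢ Ioc 0 n

/-- sum of gcds -/
def SS (n : ℕ) : ℕ := ∑ p ∈ PP n, Nat.gcd p.1 p.2

/-- number of coprime pairs -/
def CC (n : ℕ) : ℕ := ((PP n).filter (fun p => Nat.Coprime p.1 p.2)).card

theorem card_dvd (n d : ℕ) : ((PP n).filter (fun p => d ∣ p.1 ∧ d ∣ p.2)).card = (n / d) ^ 2 := by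
  have h : (PP n).filter (fun p => d ∣ p.1 ∧ d ∣ p.2) =
      ((Ioc 0 n).filter (fun x => d ∣ x)) ×ˢ ((Ioc 0 n).filter (fun x => d ∣ x)) := by
    ext p
    simp only [PP, mem_filter, mem_product]
    tauto
  rw [h, card_product, Nat.Ioc_filter_dvd_card_eq_div, sq]

theorem harm_upper (n : ℕ) : ∑ d ∈ Ioc 0 n, (1 : ℝ) / d ≤ 2 + Nat.log 2 n := by
  have h1 := harmonic_le_one_add_log n
  rw [harmonic_eq_sum_Icc] at h1
  push_cast at h1
  have h2 : ∑ d ∈ Ioc 0 n, (1 : ℝ) / d = ∑ d ∈ Icc 1 n, ((d : ℝ))⁻¹ := by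
    refine Finset.sum_congr ?_ (fun d _ => one_div _)
    ext x; simp [Nat.lt_iff_add_one_le]
  rw [h2]
  have h3 : Real.log n ≤ Nat.log 2 n + 1 := by
    rcases Nat.eq_zero_or_pos n with rfl | hn
    · simp
    have h4 : (n : ℝ) ≤ 2 ^ (Nat.log 2 n + 1) := by
      exact_mod_cast (Nat.lt_pow_succ_log_self (by norm_num) n).le
    have h5 : Real.log n ≤ Real.log (2 ^ (Nat.log 2 n + 1)) :=
      Real.log_le_log (by exact_mod_cast hn) h4
    rw [Real.log_pow] at h5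
    have h6 : Real.log 2 ≤ 1 := by
      have := Real.log_two_lt_d9; linarith
    have h7 : (0 : ℝ) ≤ ((Nat.log 2 n + 1 : ℕ) : ℝ) := by positivity
    calc Real.log n ≤ ((Nat.log 2 n + 1 : ℕ) : ℝ) * Real.log 2 := h5
      _ ≤ ((Nat.log 2 n + 1 : ℕ) : ℝ) * 1 := by gcongr
      _ = _ := by push_cast; ring
  linarith

theorem harm_lower (n : ℕ) : (Nat.log 2 n : ℝ) / 2 ≤ ∑ d ∈ Ioc 0 n, (1 : ℝ) / d := by
  have h1 := log_add_one_le_harmonic n
  rw [harmonic_eq_sum_Icc] at h1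
  push_cast at h1
  have h2 : ∑ d ∈ Ioc 0 n, (1 : ℝ) / d = ∑ d ∈ Icc 1 n, ((d : ℝ))⁻¹ := by
    refine Finset.sum_congr ?_ (fun d _ => one_div _)
    ext x; simp [Nat.lt_iff_add_one_le]
  rw [h2]
  refine le_trans ?_ h1
  rcases Nat.eq_zero_or_pos n with rfl | hn
  · simp
  have h4 : (2 : ℝ) ^ (Nat.log 2 n) ≤ (n : ℝ) + 1 := by
    have : 2 ^ (Nat.log 2 n) ≤ n := Nat.pow_log_le_self 2 hn.ne'
    have h5 : ((2 ^ (Nat.log 2 n) : ℕ) : ℝ) ≤ (n : ℝ) := by exact_mod_cast this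
    push_cast at h5
    linarith
  have h5 := Real.log_le_log (by positivity) h4
  rw [Real.log_pow] at h5
  have h6 : (1 : ℝ) / 2 ≤ Real.log 2 := by
    have := Real.log_two_gt_d9; linarith
  have h7 : (0 : ℝ) ≤ (Nat.log 2 n : ℝ) := by positivity
  nlinarith

theorem SS_upper (n : ℕ) : (SS n : ℝ) ≤ (n : ℝ) ^ 2 * (2 + Nat.log 2 n) := by
  have h1 : SS n ≤ ∑ d ∈ Ioc 0 n, d * (n / d) ^ 2 := by
    unfold SS
    have h2 : ∀ p ∈ PP n, Nat.gcd p.1 p.2 ≤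
        ∑ d ∈ Ioc 0 n, if (d ∣ p.1 ∧ d ∣ p.2) then d else 0 := by
      intro p hp
      simp only [PP, mem_product, mem_Ioc] at hp
      have h3 : Nat.gcd p.1 p.2 ∈ Ioc 0 n := by
        rw [mem_Ioc]
        refine ⟨Nat.gcd_pos_of_pos_left _ hp.1.1, ?_⟩
        exact (Nat.le_of_dvd hp.1.1 (Nat.gcd_dvd_left _ _)).trans hp.1.2
      have h4 := Finset.single_le_sum
        (f := fun d => if (d ∣ p.1 ∧ d ∣ p.2) then d else 0) (fun _ _ => Nat.zero_le _) h3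
      simp only [Nat.gcd_dvd_left, Nat.gcd_dvd_right, and_self, if_true] at h4
      exact h4
    refine (Finset.sum_le_sum h2).trans ?_
    rw [Finset.sum_comm]
    refine Finset.sum_le_sum (fun d _ => ?_)
    rw [← Finset.sum_filter, Finset.sum_const, smul_eq_mul, card_dvd, mul_comm]
  calc (SS n : ℝ) ≤ ((∑ d ∈ Ioc 0 n, d * (n / d) ^ 2 : ℕ) : ℝ) := by exact_mod_cast h1
    _ = ∑ d ∈ Ioc 0 n, (d : ℝ) * ((n / d : ℕ) : ℝ) ^ 2 := by push_cast; rfl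
    _ ≤ ∑ d ∈ Ioc 0 n, (n : ℝ) ^ 2 * (1 / d) := by
        refine Finset.sum_le_sum (fun d hd => ?_)
        have hd0 : (0 : ℝ) < d := by exact_mod_cast (mem_Ioc.1 hd).1
        have h2 : ((n / d : ℕ) : ℝ) ≤ (n : ℝ) / d := Nat.cast_div_le
        calc (d : ℝ) * ((n / d : ℕ) : ℝ) ^ 2 ≤ d * ((n : ℝ) / d) ^ 2 := by gcongr
          _ = (n : ℝ) ^ 2 * (1 / d) := by field_simp
    _ = (n : ℝ) ^ 2 * ∑ d ∈ Ioc 0 n, (1 : ℝ) / d := by rw [Finset.mul_sum]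
    _ ≤ _ := by gcongr; exact harm_upper n

theorem sum_sq_inv (m : ℕ) : ∑ k ∈ Icc 2 (m + 2), (1 : ℝ) / (k : ℝ) ^ 2 ≤ 3 / 4 - 1 / (m + 2) := by
  induction m with
  | zero => norm_num
  | succ m ih =>
    rw [show m + 1 + 2 = (m + 2) + 1 from rfl, ← Finset.insert_Icc_right_eq_Icc_add_one (by omega),
      Finset.sum_insert (by simp)]
    have h1 : (0 : ℝ) < (m : ℝ) + 2 := by positivity
    have h2 : (1 : ℝ) / (((m + 2 + 1 : ℕ) : ℝ)) ^ 2 ≤ 1 / (m + 2) - 1 / (m + 1 + 2) := by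
      push_cast
      rw [div_sub_div _ _ (by positivity) (by positivity), div_le_div_iff₀ (by positivity)
        (by positivity)]
      ring_nf
      nlinarith [sq_nonneg (m : ℝ)]
    push_cast at h2 ⊢
    linarith

theorem CC_lower (m : ℕ) : (m : ℝ) ^ 2 ≤ 4 * CC m := by
  have h1 : (PP m).card ≤ CC m + ∑ k ∈ Icc 2 m, (m / k) ^ 2 := by
    have h2 : PP m ⊆ (PP m).filter (fun p => Nat.Coprime p.1 p.2) ∪
        (Icc 2 m).biUnion (fun k => (PP m).filter (fun p => k ∣ p.1 ∧ k ∣ p.2)) := by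
      intro p hp
      rw [mem_union]
      by_cases hc : Nat.Coprime p.1 p.2
      · left; rw [mem_filter]; exact ⟨hp, hc⟩
      · right
        rw [mem_biUnion]
        refine ⟨Nat.gcd p.1 p.2, ?_, ?_⟩
        · have hp' := hp
          simp only [PP, mem_product, mem_Ioc] at hp'
          rw [mem_Icc]
          have h3 : 0 < Nat.gcd p.1 p.2 := Nat.gcd_pos_of_pos_left _ hp'.1.1
          have h4 : Nat.gcd p.1 p.2 ≠ 1 := hc
          refine ⟨by omega, ?_⟩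
          exact (Nat.le_of_dvd hp'.1.1 (Nat.gcd_dvd_left _ _)).trans hp'.1.2
        · rw [mem_filter]
          exact ⟨hp, Nat.gcd_dvd_left _ _, Nat.gcd_dvd_right _ _⟩
    refine (card_le_card h2).trans ((card_union_le _ _).trans ?_)
    refine Nat.add_le_add le_rfl (card_biUnion_le.trans ?_)
    exact Finset.sum_le_sum (fun k _ => (card_dvd m k).le)
  have h2 : (PP m).card = m ^ 2 := by
    rw [PP, card_product]; simp [sq]
  rw [h2] at h1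
  have h3 : (m : ℝ) ^ 2 ≤ CC m + ∑ k ∈ Icc 2 m, ((m / k : ℕ) : ℝ) ^ 2 := by exact_mod_cast h1
  have h4 : ∑ k ∈ Icc 2 m, ((m / k : ℕ) : ℝ) ^ 2 ≤ (m : ℝ) ^ 2 * (3 / 4) := by
    calc ∑ k ∈ Icc 2 m, ((m / k : ℕ) : ℝ) ^ 2 ≤ ∑ k ∈ Icc 2 m, (m : ℝ) ^ 2 * (1 / (k : ℝ) ^ 2) := by
          refine Finset.sum_le_sum (fun k hk => ?_)
          have h5 : ((m / k : ℕ) : ℝ) ≤ (m : ℝ) / k := Nat.cast_div_le
          calc ((m / k : ℕ) : ℝ) ^ 2 ≤ ((m : ℝ) / k) ^ 2 := by gcongr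
            _ = _ := by rw [div_pow]; ring
      _ = (m : ℝ) ^ 2 * ∑ k ∈ Icc 2 m, (1 / (k : ℝ) ^ 2) := by rw [Finset.mul_sum]
      _ ≤ (m : ℝ) ^ 2 * (3 / 4) := by
          gcongr
          rcases Nat.lt_or_ge m 2 with hm | hm
          · rw [Finset.Icc_eq_empty (by omega)]; norm_num
          · obtain ⟨j, rfl⟩ : ∃ j, m = j + 2 := ⟨m - 2, by omega⟩
            have := sum_sq_inv j
            have h6 : (0 : ℝ) ≤ 1 / ((j : ℝ) + 2) := by positivity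
            linarith
  linarith

theorem SS_lower_aux (n : ℕ) : ∑ d ∈ Ioc 0 n, d * CC (n / d) ≤ SS n := by
  unfold SS
  have hmaps : ∀ p ∈ PP n, Nat.gcd p.1 p.2 ∈ Ioc 0 n := by
    intro p hp
    simp only [PP, mem_product, mem_Ioc] at hp
    rw [mem_Ioc]
    exact ⟨Nat.gcd_pos_of_pos_left _ hp.1.1,
      (Nat.le_of_dvd hp.1.1 (Nat.gcd_dvd_left _ _)).trans hp.1.2⟩
  rw [← Finset.sum_fiberwise_of_maps_to hmaps]
  refine Finset.sum_le_sum (fun d hd => ?_)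
  have h1 : ∑ p ∈ (PP n).filter (fun p => Nat.gcd p.1 p.2 = d), Nat.gcd p.1 p.2 =
      d * ((PP n).filter (fun p => Nat.gcd p.1 p.2 = d)).card := by
    rw [Finset.sum_congr rfl (fun p hp => (mem_filter.1 hp).2), Finset.sum_const, smul_eq_mul,
      mul_comm]
  rw [h1]
  refine Nat.mul_le_mul_left d ?_
  have hd0 : 0 < d := (mem_Ioc.1 hd).1
  refine Finset.card_le_card_of_injOn (fun p => (d * p.1, d * p.2)) ?_ ?_
  · intro p hp
    simp only [PP, mem_coe, mem_filter, mem_product, mem_Ioc] at hp ⊢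
    obtain ⟨⟨⟨h2, h3⟩, h4, h5⟩, h6⟩ := hp
    refine ⟨⟨⟨Nat.mul_pos hd0 h2, ?_⟩, Nat.mul_pos hd0 h4, ?_⟩, ?_⟩
    · exact (Nat.mul_le_mul_left d h3).trans (Nat.mul_div_le n d)
    · exact (Nat.mul_le_mul_left d h5).trans (Nat.mul_div_le n d)
    · rw [Nat.gcd_mul_left, h6, mul_one]
  · intro p _ q _ h
    simp only [Prod.mk.injEq] at h
    exact Prod.ext (Nat.eq_of_mul_eq_mul_left hd0 h.1) (Nat.eq_of_mul_eq_mul_left hd0 h.2)

theorem SS_lower (n : ℕ) : (n : ℝ) ^ 2 * Nat.log 2 n ≤ 32 * SS n := by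
  have h1 : (∑ d ∈ Ioc 0 n, (d : ℝ) * CC (n / d)) ≤ SS n := by exact_mod_cast SS_lower_aux n
  have h2 : (n : ℝ) ^ 2 * (1 / 16) * ∑ d ∈ Ioc 0 n, (1 : ℝ) / d ≤
      ∑ d ∈ Ioc 0 n, (d : ℝ) * CC (n / d) := by
    rw [Finset.mul_sum]
    refine Finset.sum_le_sum (fun d hd => ?_)
    rw [mem_Ioc] at hd
    have hd0 : (0 : ℝ) < d := by exact_mod_cast hd.1
    have h3 := CC_lower (n / d)
    have h4 : (n : ℝ) / d ≤ 2 * ((n / d : ℕ) : ℝ) := by
      have h5 : 1 ≤ n / d := (Nat.one_le_div_iff hd.1).2 hd.2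
      have h6 : n < d * (n / d + 1) := Nat.lt_mul_div_succ n hd.1
      have h7 : n ≤ 2 * (n / d) * d := by nlinarith
      rw [div_le_iff₀ hd0]
      exact_mod_cast h7
    have h5 : ((n : ℝ) / d) ^ 2 ≤ 16 * CC (n / d) := by
      calc ((n : ℝ) / d) ^ 2 ≤ (2 * ((n / d : ℕ) : ℝ)) ^ 2 := by gcongr
        _ = 4 * ((n / d : ℕ) : ℝ) ^ 2 := by ring
        _ ≤ 4 * (4 * CC (n / d)) := by gcongr
        _ = _ := by ring
    have h6 : (n : ℝ) ^ 2 * (1 / 16) * (1 / d) = (d : ℝ) * (((n : ℝ) / d) ^ 2 * (1 / 16)) := by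
      rw [div_pow]; field_simp
    have h7 : (d : ℝ) * (((n : ℝ) / d) ^ 2 * (1 / 16)) ≤
        (d : ℝ) * (16 * (CC (n / d) : ℝ) * (1 / 16)) := by gcongr
    rw [h6]
    refine h7.trans (le_of_eq ?_)
    ring
  have h3 := harm_lower n
  have h4 : (0 : ℝ) ≤ (n : ℝ) ^ 2 * (1 / 16) := by positivity
  have h5 : (n : ℝ) ^ 2 * (1 / 16) * ((Nat.log 2 n : ℝ) / 2) ≤
      (n : ℝ) ^ 2 * (1 / 16) * ∑ d ∈ Ioc 0 n, (1 : ℝ) / d := by gcongr
  linarith

end Pool.Agent.Q102.Heis
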