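import Mathlib

set_option autoImplicit false

/-! The group `H(ℤ) ⋊ ℤ/4` (rotation of the integral Heisenberg group by a right angle). -/

namespace Pool.Agent.Q102.Heis

/-- first coordinate of the rotation -/
def rx (k : Fin 4) (x y : ℤ) : ℤ :=
  match k with
  | 0 => x | 1 => -y | 2 => -x | 3 => y

/-- second coordinate of the rotation -/
def ry (k : Fin 4) (x y : ℤ) : ℤ :=
  match k with
  | 0 => y | 1 => x | 2 => -y | 3 => -x

/-- third coordinate of the rotation -/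
def rz (k : Fin 4) (x y z : ℤ) : ℤ :=
  match k with
  | 0 => z | 1 => z - x * y | 2 => z | 3 => z - x * y

/-- The underlying set of `H(ℤ) ⋊ ℤ/4`. -/
@[ext] structure GG where
  x : ℤ
  y : ℤ
  z : ℤ
  k : Fin 4
deriving DecidableEq

namespace GG

instance : One GG := ⟨⟨0, 0, 0, 0⟩⟩

/-- `(v, z; k) (v', z'; k') = (v, z) R^k (v', z')`, with `(x, y, z) (x', y', z') = (x + x', y + y',
z + z' + x y')` and `R (x, y, z) = (-y, x, z - x y)`. -/
instance : Mul GG := ⟨fun g h => ⟨g.x + rx g.k h.x h.y, g.y + ry g.k h.x h.y,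
  g.z + rz g.k h.x h.y h.z + g.x * ry g.k h.x h.y, g.k + h.k⟩⟩

instance : Inv GG := ⟨fun g => ⟨rx (-g.k) (-g.x) (-g.y), ry (-g.k) (-g.x) (-g.y),
  rz (-g.k) (-g.x) (-g.y) (-g.z + g.x * g.y), -g.k⟩⟩

@[simp] theorem one_x : (1 : GG).x = 0 := rfl
@[simp] theorem one_y : (1 : GG).y = 0 := rfl
@[simp] theorem one_z : (1 : GG).z = 0 := rfl
@[simp] theorem one_k : (1 : GG).k = 0 := rfl
@[simp] theorem mul_x (g h : GG) : (g * h).x = g.x + rx g.k h.x h.y := rfl
@[simp] theorem mul_y (g h : GG) : (g * h).y = g.y + ry g.k h.x h.y := rfl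
@[simp] theorem mul_z (g h : GG) :
    (g * h).z = g.z + rz g.k h.x h.y h.z + g.x * ry g.k h.x h.y := rfl
@[simp] theorem mul_k (g h : GG) : (g * h).k = g.k + h.k := rfl
@[simp] theorem inv_x (g : GG) : (g⁻¹).x = rx (-g.k) (-g.x) (-g.y) := rfl
@[simp] theorem inv_y (g : GG) : (g⁻¹).y = ry (-g.k) (-g.x) (-g.y) := rfl
@[simp] theorem inv_z (g : GG) : (g⁻¹).z = rz (-g.k) (-g.x) (-g.y) (-g.z + g.x * g.y) := rfl
@[simp] theorem inv_k (g : GG) : (g⁻¹).k = -g.k := rfl

theorem mul_assoc' (f g h : GG) : f * g * h = f * (g * h) := by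
  obtain ⟨x, y, z, k⟩ := f
  obtain ⟨x', y', z', k'⟩ := g
  obtain ⟨x'', y'', z'', k''⟩ := h
  have e : ∀ k k' : Fin 4, ∀ x y z x' y' z' x'' y'' z'' : ℤ,
      (x + rx k x' y') + rx (k + k') x'' y'' = x + rx k (x' + rx k' x'' y'') (y' + ry k' x'' y'') ∧
      (y + ry k x' y') + ry (k + k') x'' y'' = y + ry k (x' + rx k' x'' y'') (y' + ry k' x'' y'') ∧
      (z + rz k x' y' z' + x * ry k x' y') + rz (k + k') x'' y'' z'' +
        (x + rx k x' y') * ry (k + k') x'' y'' =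
      z + rz k (x' + rx k' x'' y'') (y' + ry k' x'' y'')
        (z' + rz k' x'' y'' z'' + x' * ry k' x'' y'') +
        x * ry k (x' + rx k' x'' y'') (y' + ry k' x'' y'') := by
    intro k k' x y z x' y' z' x'' y'' z''
    fin_cases k <;> fin_cases k' <;> refine ⟨?_, ?_, ?_⟩ <;> simp [rx, ry, rz] <;> ring
  obtain ⟨e1, e2, e3⟩ := e k k' x y z x' y' z' x'' y'' z''
  ext
  · exact e1
  · exact e2
  · exact e3
  · simp [add_assoc]

instance : Group GG := Group.ofLeftAxioms mul_assoc'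
  (by intro g; ext <;> simp [rx, ry, rz])
  (by
    rintro ⟨x, y, z, k⟩
    have h1 : (-1 : Fin 4) = 3 := by decide
    have h2 : (-2 : Fin 4) = 2 := by decide
    have h3 : (-3 : Fin 4) = 1 := by decide
    fin_cases k <;> ext <;> simp [rx, ry, rz, h1, h2, h3] <;> ring)

end GG

end Pool.Agent.Q102.Heis
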