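import Pool.Agent.Q102.Heis.Auto
import Pool.Agent.Q102.Heis.Cnt

set_option autoImplicit false
set_option linter.unusedSimpArgs false

/-! Orbits of the automorphism group of `H(ℤ) ⋊ ℤ/4`. -/

namespace Pool.Agent.Q102.Heis

open GG Finset

/-- same orbit -/
def Rel (g h : GG) : Prop := ∃ φ : GG ≃* GG, φ g = h

theorem Rel.refl (g : GG) : Rel g g := ⟨MulEquiv.refl _, rfl⟩

theorem Rel.trans {f g h : GG} : Rel f g → Rel g h → Rel f h := by
  rintro ⟨φ, rfl⟩ ⟨ψ, rfl⟩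
  exact ⟨φ.trans ψ, rfl⟩

theorem Rel.conj (u g : GG) : Rel g (u * g * u⁻¹) := ⟨MulAut.conj u, by simp⟩

/-! ## Upper bound -/

/-- bounded elements -/
def Bd (n : ℕ) (g : GG) : Prop := |g.x| ≤ n ∧ |g.y| ≤ n ∧ |g.z| ≤ (n : ℤ) ^ 2

/-- representatives -/
noncomputable def R1 (n : ℕ) : Finset GG :=
  (Ioc 0 n).biUnion fun x => (range (n + 1)).biUnion fun y =>
    (range (Nat.gcd x y)).image fun z : ℕ => (⟨(x : ℤ), (y : ℤ), (z : ℤ), 0⟩ : GG)

/-- representatives -/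
noncomputable def R3 (n : ℕ) : Finset GG :=
  (((range 2 ×ˢ range 2) ×ˢ (Icc (-(6 * ((n : ℤ) + 1) ^ 2)) (6 * ((n : ℤ) + 1) ^ 2))) ×ˢ
    (univ : Finset (Fin 4))).image fun t => (⟨((t.1.1.1 : ℕ) : ℤ), ((t.1.1.2 : ℕ) : ℤ), t.1.2, t.2⟩ : GG)

theorem mem_R3 (n : ℕ) (g : GG) (h1 : g.x = 0 ∨ g.x = 1) (h2 : g.y = 0 ∨ g.y = 1)
    (h3 : |g.z| ≤ 6 * ((n : ℤ) + 1) ^ 2) : g ∈ R3 n := by
  unfold R3
  rw [mem_image]
  refine ⟨(((g.x.toNat, g.y.toNat), g.z), g.k), ?_, ?_⟩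
  · simp only [mem_product, mem_range, mem_Icc, mem_univ, and_true]
    rw [abs_le] at h3
    exact ⟨⟨by omega, by omega⟩, h3⟩
  · ext
    · simp; omega
    · simp; omega
    · rfl
    · rfl

theorem card_R1 (n : ℕ) : (R1 n).card ≤ SS n + n ^ 2 := by
  classical
  unfold R1
  calc _ ≤ ∑ x ∈ Ioc 0 n, ∑ y ∈ range (n + 1), Nat.gcd x y := by
        refine card_biUnion_le.trans (Finset.sum_le_sum (fun x _ => ?_))
        refine card_biUnion_le.trans (Finset.sum_le_sum (fun y _ => ?_))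
        exact card_image_le.trans (by rw [card_range])
    _ = ∑ x ∈ Ioc 0 n, (x + ∑ y ∈ Ioc 0 n, Nat.gcd x y) := by
        refine Finset.sum_congr rfl (fun x _ => ?_)
        have e : range (n + 1) = insert 0 (Ioc 0 n) := by
          ext y; simp
        rw [e, Finset.sum_insert (by simp), Nat.gcd_zero_right]
    _ = (∑ x ∈ Ioc 0 n, x) + SS n := by
        rw [Finset.sum_add_distrib, SS, PP, Finset.sum_product]
    _ ≤ n ^ 2 + SS n := by
        refine Nat.add_le_add_right ?_ _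
        calc ∑ x ∈ Ioc 0 n, x ≤ ∑ _x ∈ Ioc 0 n, n :=
              Finset.sum_le_sum (fun x hx => (mem_Ioc.1 hx).2)
          _ = n ^ 2 := by simp [sq]
    _ = _ := add_comm _ _

theorem card_R3 (n : ℕ) : (R3 n).card ≤ 208 * (n + 1) ^ 2 := by
  classical
  unfold R3
  refine card_image_le.trans ?_
  rw [card_product, card_product, card_product, card_range, Int.card_Icc, card_univ,
    Fintype.card_fin]
  have e : (6 * ((n : ℤ) + 1) ^ 2 + 1 - -(6 * ((n : ℤ) + 1) ^ 2)).toNat = 12 * (n + 1) ^ 2 + 1 := by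
    have : 6 * ((n : ℤ) + 1) ^ 2 + 1 - -(6 * ((n : ℤ) + 1) ^ 2) =
        ((12 * (n + 1) ^ 2 + 1 : ℕ) : ℤ) := by push_cast; ring
    rw [this, Int.toNat_natCast]
  rw [e]
  have : 1 ≤ (n + 1) ^ 2 := Nat.one_le_pow _ _ (by omega)
  nlinarith

theorem rep_k (n : ℕ) (g : GG) (hg : Bd n g) (hk : g.k ≠ 0) : ∃ h ∈ R3 n, Rel g h := by
  obtain ⟨x, y, z, k⟩ := g
  obtain ⟨hx, hy, hz⟩ := hg
  simp only at hx hy hz hk
  have n0 : (0 : ℤ) ≤ n := Int.natCast_nonneg n
  -- a generic bound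
  have bound : ∀ A B C D E F : ℤ, |A| ≤ (n : ℤ) ^ 2 → |B| ≤ n + 1 → |C| ≤ n + 1 → |D| ≤ n + 1 →
      |E| ≤ 2 * (n + 1) → |F| ≤ 2 * ((n : ℤ) + 1) ^ 2 →
      |A + B * C + F + E * D| ≤ 6 * ((n : ℤ) + 1) ^ 2 := by
    intro A B C D E F hA hB hC hD hE hF
    have h1 : |B * C| ≤ ((n : ℤ) + 1) ^ 2 := by
      rw [abs_mul, sq]; gcongr
    have h2 : |E * D| ≤ 2 * ((n : ℤ) + 1) ^ 2 := by
      rw [abs_mul]
      calc |E| * |D| ≤ (2 * ((n : ℤ) + 1)) * (n + 1) := by gcongr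
        _ = _ := by ring
    have h3 : (n : ℤ) ^ 2 ≤ ((n : ℤ) + 1) ^ 2 := by gcongr; omega
    have h4 := abs_add_le (A + B * C + F) (E * D)
    have h5 := abs_add_le (A + B * C) F
    have h6 := abs_add_le A (B * C)
    linarith
  have hmul : ∀ u v : ℤ, |u| ≤ n + 1 → |v| ≤ n + 1 → |u * v| ≤ ((n : ℤ) + 1) ^ 2 := by
    intro u v hu hv
    rw [abs_mul, sq]; gcongr
  rw [abs_le] at hx hy
  fin_cases k
  · exact absurd rfl hk
  · -- k = 1
    set ε : ℤ := (x + y) % 2 with hε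
    set u1 : ℤ := (ε - x + y) / 2 with hu1
    set u2 : ℤ := (ε - x - y) / 2 with hu2
    have e1 : u1 + u2 = ε - x := by omega
    have e2 : u2 - u1 = -y := by omega
    have hu1' : |u1| ≤ (n : ℤ) + 1 := by rw [abs_le]; omega
    have hu2' : |u2| ≤ (n : ℤ) + 1 := by rw [abs_le]; omega
    refine ⟨_, ?_, Rel.conj ⟨u1, u2, 0, 0⟩ _⟩
    apply mem_R3
    · simp [rx, ry, rz]; omega
    · simp [rx, ry, rz]; omega
    · have := bound z u1 y (-u1) (u1 + x) 0 hz hu1' (by rw [abs_le]; omega)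
        (by rw [abs_neg]; exact hu1') (by rw [abs_le] at hu1' ⊢; omega) (by simp; positivity)
      simp [rx, ry, rz] at this ⊢
      convert this using 2
  · -- k = 2
    set u1 : ℤ := -(x / 2) with hu1
    set u2 : ℤ := -(y / 2) with hu2
    have hu1' : |u1| ≤ (n : ℤ) + 1 := by rw [abs_le]; omega
    have hu2' : |u2| ≤ (n : ℤ) + 1 := by rw [abs_le]; omega
    refine ⟨_, ?_, Rel.conj ⟨u1, u2, 0, 0⟩ _⟩
    apply mem_R3
    · simp [rx, ry, rz]; omega
    · simp [rx, ry, rz]; omega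
    · have := bound z u1 y u2 (u1 + x) (u1 * u2) hz hu1' (by rw [abs_le]; omega)
        hu2' (by rw [abs_le] at hu1' ⊢; omega)
        ((hmul u1 u2 hu1' hu2').trans (by nlinarith [sq_nonneg ((n : ℤ) + 1)]))
      simp [rx, ry, rz] at this ⊢
      convert this using 2
  · -- k = 3
    set ε : ℤ := (x + y) % 2 with hε
    set u1 : ℤ := (ε - x - y) / 2 with hu1
    set u2 : ℤ := (x - y - ε) / 2 with hu2
    have e1 : u1 - u2 = ε - x := by omega
    have e2 : u2 + u1 = -y := by omega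
    have hu1' : |u1| ≤ (n : ℤ) + 1 := by rw [abs_le]; omega
    have hu2' : |u2| ≤ (n : ℤ) + 1 := by rw [abs_le]; omega
    refine ⟨_, ?_, Rel.conj ⟨u1, u2, 0, 0⟩ _⟩
    apply mem_R3
    · simp [rx, ry, rz]; omega
    · simp [rx, ry, rz]; omega
    · have := bound z u1 y u1 (u1 + x) 0 hz hu1' (by rw [abs_le]; omega)
        hu1' (by rw [abs_le] at hu1' ⊢; omega) (by simp; positivity)
      simp [rx, ry, rz] at this ⊢
      convert this using 2

theorem rep_pos (n : ℕ) (x y z : ℤ) (hx : 0 < x) (hy : 0 ≤ y) (hxn : x ≤ n) (hyn : y ≤ n) :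
    ∃ h ∈ R1 n, Rel ⟨x, y, z, 0⟩ h := by
  classical
  have hg0 : (0 : ℤ) < (Int.gcd x y : ℕ) := by
    exact_mod_cast Int.gcd_pos_of_ne_zero_left y hx.ne'
  have hab := Int.gcd_eq_gcd_ab x y
  set d : ℤ := ((Int.gcd x y : ℕ) : ℤ) with hd
  set q := z / d with hq
  refine ⟨⟨x, y, z % d, 0⟩, ?_, ?_⟩
  · unfold R1
    rw [mem_biUnion]
    refine ⟨x.toNat, by rw [mem_Ioc]; omega, ?_⟩
    rw [mem_biUnion]
    refine ⟨y.toNat, by rw [mem_range]; omega, ?_⟩
    rw [mem_image]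
    have h1 : Nat.gcd x.toNat y.toNat = Int.gcd x y := by
      have e1 : x.toNat = x.natAbs := by omega
      have e2 : y.toNat = y.natAbs := by omega
      rw [Int.gcd, e1, e2]
    have h2 := Int.emod_nonneg z hg0.ne'
    have h3 := Int.emod_lt_of_pos z hg0
    refine ⟨(z % d).toNat, ?_, ?_⟩
    · rw [mem_range, h1]
      omega
    · ext
      · simp; omega
      · simp; omega
      · simp; omega
      · simp
  · have h1 := Rel.conj ⟨-(Int.gcdB x y) * q, Int.gcdA x y * q, 0, 0⟩ ⟨x, y, z, 0⟩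
    have h2 : (⟨-(Int.gcdB x y) * q, Int.gcdA x y * q, 0, 0⟩ : GG) * ⟨x, y, z, 0⟩ *
        (⟨-(Int.gcdB x y) * q, Int.gcdA x y * q, 0, 0⟩ : GG)⁻¹ = ⟨x, y, z % d, 0⟩ := by
      have h3 : z % d = z - d * q := by
        rw [hq, Int.emod_def]
      ext
      · simp [rx, ry, rz]
      · simp [rx, ry, rz]
      · simp [rx, ry, rz]
        rw [h3, hab]
        ring
      · simp
    rw [h2] at h1
    exact h1

theorem rot_rel (i : Fin 4) (x y z : ℤ) :
    Rel ⟨x, y, z, 0⟩ ⟨rx i x y, ry i x y, rz i x y z, 0⟩ := by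
  have h1 := Rel.conj ⟨0, 0, 0, i⟩ ⟨x, y, z, 0⟩
  have h2 : (⟨0, 0, 0, i⟩ : GG) * ⟨x, y, z, 0⟩ * (⟨0, 0, 0, i⟩ : GG)⁻¹ =
      ⟨rx i x y, ry i x y, rz i x y z, 0⟩ := by
    have e1 : ∀ j : Fin 4, rx j 0 0 = 0 := by intro j; fin_cases j <;> simp [rx]
    have e2 : ∀ j : Fin 4, ry j 0 0 = 0 := by intro j; fin_cases j <;> simp [ry]
    have e3 : ∀ j : Fin 4, rz j 0 0 0 = 0 := by intro j; fin_cases j <;> simp [rz]
    ext
    · simp [e1, e2, e3]
    · simp [e1, e2, e3]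
    · simp [e1, e2, e3]
    · simp
  rw [h2] at h1
  exact h1

theorem rep (n : ℕ) (g : GG) (hg : Bd n g) : (∃ h ∈ R1 n, Rel g h) ∨ (∃ h ∈ R3 n, Rel g h) := by
  by_cases hk : g.k = 0
  · by_cases hv : g.x = 0 ∧ g.y = 0
    · right
      refine ⟨g, ?_, Rel.refl g⟩
      apply mem_R3
      · exact Or.inl hv.1
      · exact Or.inl hv.2
      · refine hg.2.2.trans ?_
        have n0 : (0 : ℤ) ≤ n := Int.natCast_nonneg n
        nlinarith
    · left
      obtain ⟨x, y, z, k⟩ := g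
      simp only at hk hv
      subst hk
      obtain ⟨hx, hy, -⟩ := hg
      simp only at hx hy
      rw [abs_le] at hx hy
      rcases lt_trichotomy x 0 with h | h | h
      · rcases lt_trichotomy y 0 with h' | h' | h'
        · obtain ⟨r, hr1, hr2⟩ := rep_pos n (-x) (-y) z (by omega) (by omega) (by omega) (by omega)
          exact ⟨r, hr1, (rot_rel 2 x y z).trans hr2⟩
        · obtain ⟨r, hr1, hr2⟩ := rep_pos n (-x) (-y) z (by omega) (by omega) (by omega) (by omega)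
          exact ⟨r, hr1, (rot_rel 2 x y z).trans hr2⟩
        · obtain ⟨r, hr1, hr2⟩ := rep_pos n y (-x) (z - x * y) (by omega) (by omega) (by omega)
            (by omega)
          exact ⟨r, hr1, (rot_rel 3 x y z).trans hr2⟩
      · rcases lt_trichotomy y 0 with h' | h' | h'
        · obtain ⟨r, hr1, hr2⟩ := rep_pos n (-y) x (z - x * y) (by omega) (by omega) (by omega)
            (by omega)
          exact ⟨r, hr1, (rot_rel 1 x y z).trans hr2⟩
        · exact absurd ⟨h, h'⟩ hv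
        · obtain ⟨r, hr1, hr2⟩ := rep_pos n y (-x) (z - x * y) (by omega) (by omega) (by omega)
            (by omega)
          exact ⟨r, hr1, (rot_rel 3 x y z).trans hr2⟩
      · rcases lt_or_ge y 0 with h' | h'
        · obtain ⟨r, hr1, hr2⟩ := rep_pos n (-y) x (z - x * y) (by omega) (by omega) (by omega)
            (by omega)
          exact ⟨r, hr1, (rot_rel 1 x y z).trans hr2⟩
        · exact rep_pos n x y z h h' (by omega) (by omega)
  · exact Or.inr (rep_k n g hg hk)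

/-! ## Lower bound -/

/-- inequivalent elements -/
def TT (n : ℕ) : Finset (Σ _ : ℕ × ℕ, ℕ) :=
  ((PP n).filter (fun p => p.2 ≤ p.1)).sigma (fun p => range (Nat.gcd p.1 p.2 / 2 + 1))

theorem card_TT (n : ℕ) : SS n ≤ 4 * (TT n).card := by
  classical
  have h1 : (TT n).card = ∑ p ∈ (PP n).filter (fun p => p.2 ≤ p.1), (Nat.gcd p.1 p.2 / 2 + 1) := by
    rw [TT, card_sigma]
    simp
  have h2 : SS n ≤ ∑ p ∈ (PP n).filter (fun p => p.2 ≤ p.1), Nat.gcd p.1 p.2 +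
      ∑ p ∈ (PP n).filter (fun p => p.1 ≤ p.2), Nat.gcd p.1 p.2 := by
    rw [SS, ← Finset.sum_union_inter]
    refine le_trans ?_ (Nat.le_add_right _ _)
    refine Finset.sum_le_sum_of_subset ?_
    intro p hp
    rw [mem_union, mem_filter, mem_filter]
    rcases le_total p.1 p.2 with h | h
    · exact Or.inr ⟨hp, h⟩
    · exact Or.inl ⟨hp, h⟩
  have h3 : ∑ p ∈ (PP n).filter (fun p => p.1 ≤ p.2), Nat.gcd p.1 p.2 =
      ∑ p ∈ (PP n).filter (fun p => p.2 ≤ p.1), Nat.gcd p.1 p.2 := by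
    refine Finset.sum_bij' (fun p _ => p.swap) (fun p _ => p.swap) ?_ ?_ ?_ ?_ ?_
    · intro p hp
      simp only [PP, mem_filter, mem_product, Prod.fst_swap, Prod.snd_swap] at hp ⊢
      tauto
    · intro p hp
      simp only [PP, mem_filter, mem_product, Prod.fst_swap, Prod.snd_swap] at hp ⊢
      tauto
    · intro p _; simp
    · intro p _; simp
    · intro p _
      simp [Nat.gcd_comm]
  have h4 : ∑ p ∈ (PP n).filter (fun p => p.2 ≤ p.1), Nat.gcd p.1 p.2 ≤ 2 * (TT n).card := by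
    rw [h1, Finset.mul_sum]
    refine Finset.sum_le_sum (fun p _ => ?_)
    omega
  omega

/-- the element of a triple -/
def el (t : Σ _ : ℕ × ℕ, ℕ) : GG := ⟨t.1.1, t.1.2, t.2, 0⟩

theorem el_inj (n : ℕ) (s t : Σ _ : ℕ × ℕ, ℕ) (hs : s ∈ TT n) (ht : t ∈ TT n)
    (h : Rel (el s) (el t)) : s = t := by
  obtain ⟨⟨x, y⟩, z⟩ := s
  obtain ⟨⟨x', y'⟩, z'⟩ := t
  simp only [TT, mem_sigma, mem_filter, PP, mem_product, mem_Ioc, mem_range] at hs ht
  obtain ⟨⟨⟨⟨hx0, -⟩, hy0, -⟩, hxy⟩, hz⟩ := hs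
  obtain ⟨⟨⟨⟨hx0', -⟩, hy0', -⟩, hxy'⟩, hz'⟩ := ht
  obtain ⟨φ, hφ⟩ := h
  obtain ⟨a, b, c, f, h1, h2, h3, h4⟩ := orbit_form φ x y z
  have h5 : (⟨a, b, c, 0⟩ : GG) = ⟨x', y', z', 0⟩ := by rw [← h1]; exact hφ
  simp only [GG.mk.injEq] at h5
  obtain ⟨rfl, rfl, rfl, -⟩ := h5
  simp only [Int.natAbs_natCast] at h3
  have hx : x' = x := by omega
  have hy : y' = y := by omega
  subst hx hy
  have hg : (Int.gcd (x' : ℤ) (y' : ℤ)) = Nat.gcd x' y' := rfl
  rw [hg] at h4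
  have hgp : 0 < Nat.gcd x' y' := Nat.gcd_pos_of_pos_left _ hx0
  have hzz : z = z' := by
    rcases h2 with rfl | rfl
    · have h6 : (z' : ℤ) - 1 * z = 0 := by
        apply Int.eq_zero_of_abs_lt_dvd h4
        rw [abs_lt]
        omega
      omega
    · have h6 : (z' : ℤ) - -1 * z = z' + z := by ring
      rw [h6] at h4
      obtain ⟨m, hm⟩ := h4
      have h7 : (z' : ℤ) + z ≤ Nat.gcd x' y' := by omega
      have hm1 : m = 0 ∨ m = 1 := by
        have h8 : m ≤ 1 := by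
          by_contra hcon
          have : (Nat.gcd x' y' : ℤ) * 2 ≤ Nat.gcd x' y' * m := by
            have h9 : (2 : ℤ) ≤ m := by omega
            have h10 : (0 : ℤ) ≤ Nat.gcd x' y' := by positivity
            nlinarith
          omega
        have h9 : 0 ≤ m := by
          by_contra hcon
          have h9 : m ≤ -1 := by omega
          have h10 : (1 : ℤ) ≤ Nat.gcd x' y' := by exact_mod_cast hgp
          nlinarith
        omega
      rcases hm1 with rfl | rfl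
      · omega
      · omega
  rw [hzz]

end Pool.Agent.Q102.Heis
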